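import Mathlib
import Pool.Agent.Q92.CRem.Main

/-!
# MP_ee90f2_an, Q1: a non-trivial c-removable continuum in the plane

The answer is yes: there is a Lipschitz function `u` whose graph over `[0, 1]` is `c`-removable.
-/

open Set Topology

namespace Pool.Agent.Results.MP_ee90f2_an.LipschitzArc

/-- `f` is locally convex on `U`: every point of `U` has an open convex neighbourhood contained
in `U` on which `f` is convex. -/
def LocallyConvexOn (f : ℝ × ℝ → ℝ) (U : Set (ℝ × ℝ)) : Prop :=
  ∀ z ∈ U, ∃ V ⊆ U, IsOpen V ∧ Convex ℝ V ∧ z ∈ V ∧ ConvexOn ℝ V f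

/-- `A` is `c`-removable: it is closed, and every function that is continuous on the plane and
locally convex on the complement of `A` is convex on the plane. -/
def CRemovable (A : Set (ℝ × ℝ)) : Prop :=
  IsClosed A ∧ ∀ f : ℝ × ℝ → ℝ, Continuous f → LocallyConvexOn f Aᶜ → ConvexOn ℝ univ f

/-- A non-trivial continuum: compact, connected, with more than one point. -/
def IsNontrivialContinuum (K : Set (ℝ × ℝ)) : Prop :=
  IsCompact K ∧ IsConnected K ∧ K.Nontrivial

/-- There is a Lipschitz function `u` on the line such that the arc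
`K = {(t, u t) : 0 ≤ t ≤ 1}` is a non-trivial continuum which is `c`-removable. -/
theorem result : ∃ u : ℝ → ℝ, LipschitzWith (3 / 2) u ∧
    IsNontrivialContinuum ((fun t => (t, u t)) '' Icc (0 : ℝ) 1) ∧
    CRemovable ((fun t => (t, u t)) '' Icc (0 : ℝ) 1) := by
  have hcont : Continuous (fun t : ℝ => (t, Q92.CRem.g t)) :=
    continuous_id.prodMk Q92.CRem.g_continuous
  have hcomp : IsCompact ((fun t => (t, Q92.CRem.g t)) '' Icc (0 : ℝ) 1) :=
    isCompact_Icc.image hcont
  refine ⟨Q92.CRem.g, ?_, ⟨hcomp, ?_, ?_⟩, hcomp.isClosed, ?_⟩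
  · refine LipschitzWith.of_dist_le_mul fun x y => ?_
    rw [Real.dist_eq, Real.dist_eq]
    simpa using Q92.CRem.g_lip x y
  · exact (isConnected_Icc zero_le_one).image _ hcont.continuousOn
  · refine ⟨_, ⟨0, ⟨le_rfl, zero_le_one⟩, rfl⟩, _, ⟨1, ⟨zero_le_one, le_rfl⟩, rfl⟩, ?_⟩
    intro h
    have := congrArg Prod.fst h
    simp at this
  · intro f hf hloc
    refine Q92.CRem.removable ?_ hf hloc
    rintro _ ⟨t, -, rfl⟩
    rfl

end Pool.Agent.Results.MP_ee90f2_an.LipschitzArc
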